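import Mathlib.Analysis.SpecialFunctions.Pow.Real
import Mathlib.Analysis.SpecialFunctions.Pow.Continuity
import Mathlib.Order.Filter.AtTopBot.Archimedean

/-!
# The power trick

Inequalities between multiplicative (additive) invariants which hold up to a factor (an error) of
lower order hold exactly.
-/

open Filter Topology

namespace Pool.Agent.TH116.PT

/-- If `x ^ n ≤ C * y ^ n` for all `n ≥ 1`, then `x ≤ y`. -/
lemma le_of_pow_le {x y C : ℝ} (_hx : 0 ≤ x) (hy : 0 ≤ y)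
    (h : ∀ n : ℕ, 1 ≤ n → x ^ n ≤ C * y ^ n) : x ≤ y := by
  by_contra hlt
  rw [not_le] at hlt
  rcases hy.eq_or_lt with rfl | hy'
  · have h1 := h 1 le_rfl
    simp only [pow_one, mul_zero] at h1
    exact absurd hlt (not_lt.2 h1)
  · have h1 : 1 < x / y := (one_lt_div hy').2 hlt
    obtain ⟨n, hn⟩ := pow_unbounded_of_one_lt C h1
    have h2 : C < (x / y) ^ (n + 1) :=
      hn.trans_le (pow_le_pow_right₀ h1.le (Nat.le_succ n))
    rw [div_pow, lt_div_iff₀ (pow_pos hy' _)] at h2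
    exact absurd (h (n + 1) (by omega)) (not_le.2 h2)

/-- If `x ≤ s ^ ε * y` for all `ε > 0`, then `x ≤ y`. -/
lemma le_of_rpow_le {x y s : ℝ} (hs : 1 ≤ s) (h : ∀ ε : ℝ, 0 < ε → x ≤ s ^ ε * y) : x ≤ y := by
  have hs0 : 0 < s := by linarith
  have h1 : Tendsto (fun ε : ℝ => s ^ ε * y) (𝓝[>] 0) (𝓝 (s ^ (0 : ℝ) * y)) := by
    apply Tendsto.mul_const
    exact ((Real.continuous_const_rpow hs0.ne').tendsto 0).mono_left nhdsWithin_le_nhds
  rw [Real.rpow_zero, one_mul] at h1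
  refine ge_of_tendsto h1 ?_
  filter_upwards [self_mem_nhdsWithin] with ε hε
  exact h ε hε

variable {B : Type*} (pow : B → ℕ → B)

/-- The power trick for multiplicative invariants: let `f`, `g` be multiplicative and `s`
submultiplicative for powers. If for all `ε > 0`, `f ≤ C s ^ ε g` for some constant `C`, then
`f ≤ g`. -/
theorem le_of_le_rpow_mul {f g s : B → ℝ} (hf : ∀ b n, f (pow b n) = f b ^ n)
    (hg : ∀ b n, g (pow b n) = g b ^ n) (hs : ∀ b n, s (pow b n) ≤ s b ^ n)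
    (hf0 : ∀ b, 0 ≤ f b) (hg0 : ∀ b, 0 ≤ g b) (hs1 : ∀ b, 1 ≤ s b)
    (h : ∀ ε : ℝ, 0 < ε → ∃ C : ℝ, ∀ b, f b ≤ C * s b ^ ε * g b) (b : B) : f b ≤ g b := by
  have hs0 : ∀ b, 0 ≤ s b := fun b => zero_le_one.trans (hs1 b)
  refine le_of_rpow_le (hs1 b) fun ε hε => ?_
  obtain ⟨C, hC⟩ := h ε hε
  have hC' : ∀ b, f b ≤ |C| * s b ^ ε * g b := fun b => by
    refine (hC b).trans ?_
    have h1 : 0 ≤ s b ^ ε * g b := mul_nonneg (Real.rpow_nonneg (hs0 b) ε) (hg0 b)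
    rw [mul_assoc, mul_assoc]
    exact mul_le_mul_of_nonneg_right (le_abs_self C) h1
  refine le_of_pow_le (C := |C|) (hf0 b) (mul_nonneg (Real.rpow_nonneg (hs0 b) ε) (hg0 b))
    fun n _ => ?_
  have h2 := hC' (pow b n)
  rw [hf, hg] at h2
  refine h2.trans ?_
  rw [mul_pow, ← mul_assoc]
  refine mul_le_mul_of_nonneg_right ?_ (pow_nonneg (hg0 b) n)
  refine mul_le_mul_of_nonneg_left ?_ (abs_nonneg C)
  calc s (pow b n) ^ ε ≤ (s b ^ n) ^ ε :=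
        Real.rpow_le_rpow (hs0 _) (hs b n) hε.le
    _ = (s b ^ ε) ^ n := by
        rw [← Real.rpow_natCast (s b) n, ← Real.rpow_mul (hs0 b), mul_comm,
          Real.rpow_mul (hs0 b), Real.rpow_natCast]

/-- Equality and inequalities of two multiplicative invariants are equivalent to their versions up to
factors `C s ^ ε`. -/
theorem multiplicative_iff {f g s : B → ℝ} (hf : ∀ b n, f (pow b n) = f b ^ n)
    (hg : ∀ b n, g (pow b n) = g b ^ n) (hs : ∀ b n, s (pow b n) ≤ s b ^ n)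
    (hf0 : ∀ b, 0 ≤ f b) (hg0 : ∀ b, 0 ≤ g b) (hs1 : ∀ b, 1 ≤ s b) :
    ((∀ b, f b ≤ g b) ↔ ∀ ε : ℝ, 0 < ε → ∃ C : ℝ, ∀ b, f b ≤ C * s b ^ ε * g b) ∧
    ((∀ b, g b ≤ f b) ↔ ∀ ε : ℝ, 0 < ε → ∃ C : ℝ, ∀ b, g b ≤ C * s b ^ ε * f b) ∧
    ((∀ b, f b = g b) ↔ ∀ ε : ℝ, 0 < ε → ∃ C : ℝ, ∀ b,
      f b ≤ C * s b ^ ε * g b ∧ g b ≤ C * s b ^ ε * f b) := by
  have key : ∀ {f g : B → ℝ}, (∀ b, 0 ≤ f b) → (∀ b, 0 ≤ g b) → (∀ b, f b ≤ g b) →
      ∀ ε : ℝ, 0 < ε → ∀ b, f b ≤ 1 * s b ^ ε * g b := by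
    intro f g _ hg0 h ε hε b
    have h1 : 1 ≤ s b ^ ε := Real.one_le_rpow (hs1 b) hε.le
    rw [one_mul]
    exact (h b).trans (le_mul_of_one_le_left (hg0 b) h1)
  refine ⟨⟨fun h ε hε => ⟨1, key hf0 hg0 h ε hε⟩,
      fun h => le_of_le_rpow_mul pow hf hg hs hf0 hg0 hs1 h⟩,
    ⟨fun h ε hε => ⟨1, key hg0 hf0 h ε hε⟩,
      fun h => le_of_le_rpow_mul pow hg hf hs hg0 hf0 hs1 h⟩,
    ⟨fun h ε hε => ⟨1, fun b => ⟨key hf0 hg0 (fun b => (h b).le) ε hε b,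
      key hg0 hf0 (fun b => (h b).ge) ε hε b⟩⟩, fun h b => le_antisymm ?_ ?_⟩⟩
  · refine le_of_le_rpow_mul pow hf hg hs hf0 hg0 hs1 (fun ε hε => ?_) b
    obtain ⟨C, hC⟩ := h ε hε
    exact ⟨C, fun b => (hC b).1⟩
  · refine le_of_le_rpow_mul pow hg hf hs hg0 hf0 hs1 (fun ε hε => ?_) b
    obtain ⟨C, hC⟩ := h ε hε
    exact ⟨C, fun b => (hC b).2⟩

/-- If `n x ≤ ε n s + C` for all `ε > 0` (with `C` depending on `ε`) and all `n ≥ 1`, then
`x ≤ 0`. -/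
lemma nonpos_of_mul_le {x s : ℝ}
    (h : ∀ ε : ℝ, 0 < ε → ∃ C : ℝ, ∀ n : ℕ, 1 ≤ n → n * x ≤ ε * (n * s) + C) : x ≤ 0 := by
  by_contra hx
  rw [not_le] at hx
  obtain ⟨C, hC⟩ := h (x / (2 * (|s| + 1))) (by positivity)
  obtain ⟨n, hn⟩ := exists_nat_gt (2 * C / x)
  have hn1 : (n : ℝ) ≤ ((n + 1 : ℕ) : ℝ) := by push_cast; linarith
  have h1 := hC (n + 1) (by omega)
  set m : ℝ := ((n + 1 : ℕ) : ℝ) with hm
  have hm0 : 0 < m := by rw [hm]; positivity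
  have h2 : x / (2 * (|s| + 1)) * (m * s) ≤ x / 2 * m := by
    have h3 : s ≤ |s| + 1 := by linarith [le_abs_self s]
    have h4 : x / (2 * (|s| + 1)) * (m * s) ≤ x / (2 * (|s| + 1)) * (m * (|s| + 1)) := by
      have : 0 ≤ x / (2 * (|s| + 1)) := by positivity
      exact mul_le_mul_of_nonneg_left (mul_le_mul_of_nonneg_left h3 hm0.le) this
    refine h4.trans (le_of_eq ?_)
    field_simp
  have h5 : 2 * C / x < m := hn.trans_le hn1
  rw [div_lt_iff₀ hx] at h5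
  nlinarith

end Pool.Agent.TH116.PT
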