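import Pool.Agent.TH116.PT.Basic
import Mathlib.Algebra.Order.Monoid.Unbundled.WithTop
import Mathlib.Algebra.Order.Ring.WithTop

/-!
# Lower bounds for Kodaira dimensions up to sublinear defects
-/

universe u

namespace Pool.Agent.TH116.PT

/-- `x ≥ y - δ` if the right side is positive, for `x`, `y` in `{-∞} ∪ ℕ`. -/
def AlmostGE (x y : WithBot ℕ) (δ : ℝ) : Prop :=
  ∀ e : ℕ, y = (e : WithBot ℕ) → δ < e → ∃ c : ℕ, x = (c : WithBot ℕ) ∧ (e : ℝ) - δ ≤ c

lemma cases_withBot (x : WithBot ℕ) : x = ⊥ ∨ ∃ n : ℕ, x = (n : WithBot ℕ) := by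
  induction x using WithBot.recBotCoe with
  | bot => exact Or.inl rfl
  | coe n => exact Or.inr ⟨n, rfl⟩

lemma nsmul_coe (n c : ℕ) : n • ((c : ℕ) : WithBot ℕ) = ((n * c : ℕ) : WithBot ℕ) := by
  rw [nsmul_eq_mul]
  push_cast
  rfl

lemma almostGE_of_le {x y : WithBot ℕ} (h : y ≤ x) {δ : ℝ} (hδ : 0 ≤ δ) : AlmostGE x y δ := by
  intro e he _
  rcases cases_withBot x with rfl | ⟨c, rfl⟩
  · rw [he] at h
    exact absurd (le_bot_iff.1 h) (WithBot.natCast_ne_bot e)
  · rw [he, Nat.cast_le] at h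
    refine ⟨c, rfl, ?_⟩
    have : (e : ℝ) ≤ c := by exact_mod_cast h
    linarith

/-- Let `f` be an object with Kodaira dimension `x` and expected Kodaira dimension `y`, and let `d`
be its dimension. If for all `ε > 0` there is `C` such that for all large `m` (depending on `n`), the
`(n+1)`-st power of `f` times the `m`-th power of an object of general type satisfies the expected
inequality up to an error `ε (n + 1) d + C`, then `x ≥ y`. -/
theorem le_of_almost {x y : WithBot ℕ} {d : ℝ} (hd : 0 ≤ d) {u : ℕ} (hu : 1 ≤ u)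
    (h : ∀ ε : ℝ, 0 < ε → ∃ C : ℝ, ∀ n : ℕ, ∃ M : ℕ, ∀ m : ℕ, M ≤ m →
      AlmostGE ((n + 1) • x + ((u * m : ℕ) : WithBot ℕ)) ((n + 1) • y + ((u * m : ℕ) : WithBot ℕ))
        (ε * ((n + 1) * d) + C)) : y ≤ x := by
  rcases cases_withBot y with rfl | ⟨e, rfl⟩
  · exact bot_le
  · obtain ⟨C, hC⟩ := h (1 / (2 * (d + 1))) (by positivity)
    have hε : 1 / (2 * (d + 1)) * d ≤ 1 / 2 := by
      rw [div_mul_eq_mul_div, one_mul, div_le_div_iff₀ (by positivity) (by norm_num)]
      linarith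
    -- choose n large
    obtain ⟨n, hn⟩ := exists_nat_gt (2 * C)
    obtain ⟨M, hM⟩ := hC n
    obtain ⟨m₀, hm₀⟩ := exists_nat_gt (1 / (2 * (d + 1)) * ((n + 1) * d) + C)
    set m := max M m₀ with hm
    have h1 := hM m (le_max_left _ _) ((n + 1) * e + u * m)
      (by rw [nsmul_coe, ← Nat.cast_add])
      (by
        have h2 : (m₀ : ℝ) ≤ m := by exact_mod_cast le_max_right _ _
        have h3 : (m : ℝ) ≤ u * m := by
          have : (1 : ℝ) ≤ u := by exact_mod_cast hu
          have hm' : (0 : ℝ) ≤ m := Nat.cast_nonneg m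
          nlinarith
        push_cast
        have h4 : (0 : ℝ) ≤ (n + 1) * e := by positivity
        linarith)
    obtain ⟨c, hc, hle⟩ := h1
    rcases cases_withBot x with rfl | ⟨k, rfl⟩
    · exfalso
      rw [succ_nsmul, WithBot.add_bot, WithBot.bot_add] at hc
      exact WithBot.natCast_ne_bot c hc.symm
    · rw [nsmul_coe, ← Nat.cast_add, Nat.cast_inj] at hc
      rw [← hc] at hle
      push_cast at hle
      have hn1 : (0 : ℝ) < (n : ℝ) + 1 := by positivity
      have h5 : ((n : ℝ) + 1) * e - (1 / (2 * (d + 1)) * ((n + 1) * d) + C) ≤ (n + 1) * k := by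
        linarith
      have h6 : 1 / (2 * (d + 1)) * ((n + 1) * d) ≤ (n + 1) * (1 / 2) := by
        have : 1 / (2 * (d + 1)) * (((n : ℝ) + 1) * d) = (n + 1) * (1 / (2 * (d + 1)) * d) := by ring
        rw [this]
        exact mul_le_mul_of_nonneg_left hε hn1.le
      have h7 : (e : ℝ) < k + 1 := by
        by_contra hcon
        rw [not_lt] at hcon
        nlinarith
      have h8 : e ≤ k := by
        have : e < k + 1 := by exact_mod_cast h7
        omega
      exact_mod_cast h8

/-- The version of `le_of_almost` for the powers of the product of `f` with one object of general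
type. -/
theorem le_of_almost' {x y : WithBot ℕ} {d : ℝ} (hd : 0 ≤ d) {u : ℕ} (hu : 1 ≤ u)
    (h : ∀ ε : ℝ, 0 < ε → ∃ C : ℝ, ∀ n : ℕ,
      AlmostGE ((n + 1) • (x + (u : WithBot ℕ))) ((n + 1) • (y + (u : WithBot ℕ)))
        (ε * ((n + 1) * d) + C)) : y ≤ x := by
  rcases cases_withBot y with rfl | ⟨e, rfl⟩
  · exact bot_le
  · obtain ⟨C, hC⟩ := h (1 / (2 * (d + 1))) (by positivity)
    have hε : 1 / (2 * (d + 1)) * d ≤ 1 / 2 := by
      rw [div_mul_eq_mul_div, one_mul, div_le_div_iff₀ (by positivity) (by norm_num)]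
      linarith
    obtain ⟨n, hn⟩ := exists_nat_gt (2 * C)
    have hn1 : (0 : ℝ) < (n : ℝ) + 1 := by positivity
    have h6 : 1 / (2 * (d + 1)) * ((n + 1) * d) ≤ (n + 1) * (1 / 2) := by
      have : 1 / (2 * (d + 1)) * (((n : ℝ) + 1) * d) = (n + 1) * (1 / (2 * (d + 1)) * d) := by ring
      rw [this]
      exact mul_le_mul_of_nonneg_left hε hn1.le
    have hu' : (1 : ℝ) ≤ u := by exact_mod_cast hu
    have he' : (0 : ℝ) ≤ e := Nat.cast_nonneg e
    obtain ⟨c, hc, hle⟩ := hC n ((n + 1) * (e + u))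
      (by rw [← Nat.cast_add, nsmul_coe])
      (by push_cast; nlinarith)
    rcases cases_withBot x with rfl | ⟨k, rfl⟩
    · exfalso
      rw [WithBot.bot_add, succ_nsmul, WithBot.add_bot] at hc
      exact WithBot.natCast_ne_bot c hc.symm
    · rw [← Nat.cast_add, nsmul_coe, Nat.cast_inj] at hc
      rw [← hc] at hle
      push_cast at hle
      have h7 : (e : ℝ) < k + 1 := by
        by_contra hcon
        rw [not_lt] at hcon
        nlinarith
      have h8 : e ≤ k := by
        have : e < k + 1 := by exact_mod_cast h7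
        omega
      exact_mod_cast h8

/-- Objects `f` (varieties, fibre spaces) with a Kodaira dimension `κ`, an expected lower bound `e`
for it, and a dimension, all additive for powers and for products with the powers of an object of
general type and dimension `u ≥ 1`. -/
structure DefectTheory where
  /-- the objects -/
  F : Type u
  /-- the Kodaira dimension -/
  κ : F → WithBot ℕ
  /-- the expected lower bound -/
  e : F → WithBot ℕ
  /-- the dimension -/
  dim : F → ℕ
  e_le : ∀ f, e f ≤ (dim f : WithBot ℕ)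
  /-- `pow f n` is the `(n+1)`-st power of `f` -/
  pow : F → ℕ → F
  κ_pow : ∀ f n, κ (pow f n) = (n + 1) • κ f
  e_pow : ∀ f n, e (pow f n) = (n + 1) • e f
  dim_pow : ∀ f n, dim (pow f n) = (n + 1) * dim f
  /-- the dimension of the object of general type -/
  u : ℕ
  one_le_u : 1 ≤ u
  /-- `tw f m` is the product of `f` with the `m`-th power of the object of general type -/
  tw : F → ℕ → F
  κ_tw : ∀ f m, κ (tw f m) = κ f + ((u * m : ℕ) : WithBot ℕ)
  e_tw : ∀ f m, e (tw f m) = e f + ((u * m : ℕ) : WithBot ℕ)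
  dim_tw : ∀ f m, dim (tw f m) = dim f + u * m

variable (T : DefectTheory.{u})

/-- `e ≤ κ` for all objects if and only if this holds up to an error `ε dim + C` for each
`ε > 0`. -/
theorem DefectTheory.iff_sublinear :
    (∀ f, T.e f ≤ T.κ f) ↔ ∀ ε : ℝ, 0 < ε → ∃ C : ℝ, ∀ f,
      AlmostGE (T.κ f) (T.e f) (ε * T.dim f + C) := by
  constructor
  · intro h ε hε
    refine ⟨0, fun f => almostGE_of_le (h f) ?_⟩
    have : (0 : ℝ) ≤ T.dim f := Nat.cast_nonneg _
    nlinarith
  · intro h f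
    refine le_of_almost' (d := T.dim f + T.u) (by positivity) T.one_le_u fun ε hε => ?_
    obtain ⟨C, hC⟩ := h ε hε
    refine ⟨C, fun n => ?_⟩
    have h1 := hC (T.pow (T.tw f 1) n)
    rw [T.κ_pow, T.e_pow, T.dim_pow, T.κ_tw, T.e_tw, T.dim_tw, mul_one] at h1
    push_cast at h1
    exact h1

/-- Let `N` be a property of objects that holds for the products of any object with the `m`-th power
of the object of general type, for all large `m`. Then `e ≤ κ` for all objects if and only if this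
holds for the objects with `N` up to an error `ε (dim - e) + C` for each `ε > 0`. -/
theorem DefectTheory.iff_eventually (N : T.F → Prop)
    (hN : ∀ f, T.e f ≠ ⊥ → ∃ M : ℕ, ∀ m : ℕ, M ≤ m → N (T.tw f m)) :
    (∀ f, T.e f ≤ T.κ f) ↔ ∀ ε : ℝ, 0 < ε → ∃ C : ℝ, ∀ (f : T.F) (a : ℕ),
      T.e f = (a : WithBot ℕ) → N f →
      AlmostGE (T.κ f) (T.e f) (ε * (T.dim f - a) + C) := by
  have hle : ∀ (f : T.F) (a : ℕ), T.e f = (a : WithBot ℕ) → (a : ℝ) ≤ T.dim f := by
    intro f a ha
    have h1 := T.e_le f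
    rw [ha, Nat.cast_le] at h1
    exact_mod_cast h1
  constructor
  · intro h ε hε
    refine ⟨0, fun f a ha _ => almostGE_of_le (h f) ?_⟩
    have := hle f a ha
    nlinarith
  · intro h f
    rcases cases_withBot (T.e f) with he | ⟨a, ha⟩
    · rw [he]
      exact bot_le
    have hd := hle f a ha
    refine le_of_almost (d := T.dim f - a) (by linarith) T.one_le_u fun ε hε => ?_
    obtain ⟨C, hC⟩ := h ε hε
    refine ⟨C, fun n => ?_⟩
    have hpow : T.e (T.pow f n) = (((n + 1) * a : ℕ) : WithBot ℕ) := by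
      rw [T.e_pow, ha, nsmul_coe]
    obtain ⟨M, hM⟩ := hN (T.pow f n) (by rw [hpow]; exact WithBot.natCast_ne_bot _)
    refine ⟨M, fun m hm => ?_⟩
    have h1 := hC (T.tw (T.pow f n) m) ((n + 1) * a + T.u * m)
      (by rw [T.e_tw, hpow, ← Nat.cast_add])
      (hM m hm)
    rw [T.κ_tw, T.e_tw, T.κ_pow, T.e_pow, T.dim_tw, T.dim_pow] at h1
    have e : ε * ((((n + 1) * T.dim f + T.u * m : ℕ) : ℝ) - (((n + 1) * a + T.u * m : ℕ) : ℝ)) + C =
        ε * ((n + 1) * (T.dim f - a)) + C := by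
      push_cast
      ring
    rw [e] at h1
    exact h1

/-- Numbers `a + u m` are at least `(1 - η) (d + u m)` for all large `m`. -/
lemma eventually_near (η : ℝ) (hη : 0 < η) (a d u : ℕ) (hu : 1 ≤ u) :
    ∃ M : ℕ, ∀ m : ℕ, M ≤ m → (1 - η) * ((d + u * m : ℕ) : ℝ) ≤ ((a + u * m : ℕ) : ℝ) := by
  obtain ⟨M, hM⟩ := exists_nat_gt ((d : ℝ) / η)
  refine ⟨M, fun m hm => ?_⟩
  have h2 : (M : ℝ) ≤ m := by exact_mod_cast hm
  have h3 : (m : ℝ) ≤ u * m := by
    have : (1 : ℝ) ≤ u := by exact_mod_cast hu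
    have hm' : (0 : ℝ) ≤ m := Nat.cast_nonneg m
    nlinarith
  rw [div_lt_iff₀ hη] at hM
  have h4 : (d : ℝ) < η * (u * m) := by nlinarith
  have h5 : (0 : ℝ) ≤ a := Nat.cast_nonneg _
  have h6 : (0 : ℝ) ≤ d := Nat.cast_nonneg _
  push_cast
  nlinarith

/-- `e ≤ κ` for all objects if and only if, for one `η > 0`, this holds for the objects with
`e ≥ (1 - η) dim` up to an error `ε (dim - e) + C` for each `ε > 0`. -/
theorem DefectTheory.iff_near (η : ℝ) (hη : 0 < η) :
    (∀ f, T.e f ≤ T.κ f) ↔ ∀ ε : ℝ, 0 < ε → ∃ C : ℝ, ∀ (f : T.F) (a : ℕ),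
      T.e f = (a : WithBot ℕ) → (∃ a : ℕ, T.e f = (a : WithBot ℕ) ∧ (1 - η) * T.dim f ≤ a) →
      AlmostGE (T.κ f) (T.e f) (ε * (T.dim f - a) + C) := by
  refine T.iff_eventually (fun f => ∃ a : ℕ, T.e f = (a : WithBot ℕ) ∧ (1 - η) * T.dim f ≤ a) ?_
  intro f hf
  rcases cases_withBot (T.e f) with he | ⟨a, ha⟩
  · exact absurd he hf
  obtain ⟨M, hM⟩ := eventually_near η hη a (T.dim f) T.u T.one_le_u
  refine ⟨M, fun m hm => ⟨a + T.u * m, ?_, ?_⟩⟩
  · rw [T.e_tw, ha, ← Nat.cast_add]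
  · rw [T.dim_tw]
    exact hM m hm

end Pool.Agent.TH116.PT
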