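import Mathlib

/-!
# Defects which are multiplied by the size of a twist
-/

universe u

namespace Pool.Agent.TH116.PT

/-- If `|D| c ≤ ε s c + C` for arbitrarily large `c`, for each `ε > 0` (with `C` depending on `ε`), then
`D = 0`. -/
theorem eq_zero_of_linear {D : ℤ} {s : ℕ}
    (h : ∀ ε : ℝ, 0 < ε → ∃ C : ℝ, ∀ N : ℕ, ∃ c : ℕ, N ≤ c ∧
      |(D : ℝ)| * c ≤ ε * (s * c) + C) : D = 0 := by
  by_contra hD
  have hD1 : (1 : ℝ) ≤ |(D : ℝ)| := by
    have : (1 : ℤ) ≤ |D| := Int.one_le_abs hD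
    exact_mod_cast this
  have hs : (0 : ℝ) ≤ s := Nat.cast_nonneg s
  obtain ⟨C, hC⟩ := h (1 / (2 * (s + 1))) (by positivity)
  obtain ⟨N, hN⟩ := exists_nat_gt (2 * C)
  obtain ⟨c, hc, hle⟩ := hC N
  have hc' : (N : ℝ) ≤ c := by exact_mod_cast hc
  have hc0 : (0 : ℝ) ≤ c := Nat.cast_nonneg c
  have h1 : 1 / (2 * ((s : ℝ) + 1)) * (s * c) ≤ c / 2 := by
    rw [div_mul_eq_mul_div, one_mul, div_le_div_iff₀ (by positivity) (by norm_num)]
    nlinarith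
  have h2 : (c : ℝ) ≤ |(D : ℝ)| * c := by nlinarith
  linarith

end Pool.Agent.TH116.PT
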