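import Pool.Agent.TH116.PT.Powers
import Mathlib.Algebra.Polynomial.Degree.Lemmas
import Mathlib.Algebra.Polynomial.Degree.Operations

/-!
# Multiplicative polynomials with small coefficients different from `1` and `-1`
-/

universe u

namespace Pool.Agent.TH116.PT

open Polynomial

variable {F : Type u} (mul : F → F → F)

lemma powOf_poly {S : F → ℤ[X]} (h : ∀ f g, S (mul f g) = S f * S g) (f : F) (n : ℕ) :
    S (powOf mul f n) = S f ^ (n + 1) := by
  induction n with
  | zero => simp [powOf]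
  | succ n ih => rw [powOf, h, ih]; ring

lemma powOf_nat {N : F → ℕ} (h : ∀ f g, N (mul f g) = N f * N g) (f : F) (n : ℕ) :
    N (powOf mul f n) = N f ^ (n + 1) := by
  induction n with
  | zero => simp [powOf]
  | succ n ih => rw [powOf, h, ih]; ring

/-- If polynomials multiplicative for a product have coefficients which are smaller than each power
of a multiplicative size, and no coefficient is `1` or `-1`, then all of them are zero. -/
theorem poly_eq_zero {S : F → ℤ[X]} {N : F → ℕ} (hN : ∀ f, 1 ≤ N f)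
    (hS : ∀ f g, S (mul f g) = S f * S g) (hNm : ∀ f g, N (mul f g) = N f * N g)
    (h1 : ∀ f d, (S f).coeff d ≠ 1 ∧ (S f).coeff d ≠ -1)
    (h2 : ∀ ε : ℝ, 0 < ε → ∃ C : ℝ, ∀ f d, |((S f).coeff d : ℝ)| ≤ C * (N f : ℝ) ^ ε) (f : F) :
    S f = 0 := by
  have hN0 : (1 : ℝ) ≤ N f := by exact_mod_cast hN f
  have key : |((S f).leadingCoeff : ℝ)| ≤ 1 := by
    refine le_of_rpow_le hN0 fun ε hε => ?_
    obtain ⟨C, hC⟩ := h2 ε hε
    rw [mul_one]
    refine le_of_pow_le (C := C) (abs_nonneg _) (Real.rpow_nonneg (by linarith) ε) fun n hn => ?_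
    obtain ⟨m, rfl⟩ : ∃ m, n = m + 1 := ⟨n - 1, by omega⟩
    have h3 := hC (powOf mul f m) (S (powOf mul f m)).natDegree
    rw [coeff_natDegree, powOf_poly mul hS, powOf_nat mul hNm, leadingCoeff_pow] at h3
    push_cast at h3
    rw [abs_pow] at h3
    refine h3.trans (le_of_eq ?_)
    congr 1
    rw [← Real.rpow_natCast (N f : ℝ) (m + 1), ← Real.rpow_mul (by linarith), mul_comm,
      Real.rpow_mul (by linarith), Real.rpow_natCast]
  have h4 : |(S f).leadingCoeff| ≤ 1 := by exact_mod_cast key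
  rw [abs_le] at h4
  have h5 := h1 f (S f).natDegree
  rw [coeff_natDegree] at h5
  have h6 : (S f).leadingCoeff = 0 := by omega
  exact leadingCoeff_eq_zero.1 h6

/-- The equivalence for all objects. -/
theorem coeff_eq_zero_iff {S : F → ℤ[X]} {N : F → ℕ} (hN : ∀ f, 1 ≤ N f)
    (hS : ∀ f g, S (mul f g) = S f * S g) (hNm : ∀ f g, N (mul f g) = N f * N g) :
    (∀ f d, (S f).coeff d = 0) ↔
      (∀ f d, (S f).coeff d ≠ 1 ∧ (S f).coeff d ≠ -1) ∧
      ∀ ε : ℝ, 0 < ε → ∃ C : ℝ, ∀ f d, |((S f).coeff d : ℝ)| ≤ C * (N f : ℝ) ^ ε := by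
  constructor
  · intro h
    refine ⟨fun f d => by simp [h f d], fun ε _ => ⟨0, fun f d => by simp [h f d]⟩⟩
  · rintro ⟨h1, h2⟩ f d
    rw [poly_eq_zero mul hN hS hNm h1 h2 f, coeff_zero]

end Pool.Agent.TH116.PT
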