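import Pool.Agent.TH116.PT.Defect

/-!
# Powers and twists for a product on a type of objects
-/

universe u

namespace Pool.Agent.TH116.PT

variable {F : Type u} (mul : F → F → F)

/-- The `(n+1)`-st power of `f`. -/
def powOf (f : F) : ℕ → F
  | 0 => f
  | n + 1 => mul (powOf f n) f

/-- The product of `f` with the `m`-th power of `c`. -/
def twOf (c f : F) : ℕ → F
  | 0 => f
  | m + 1 => mul (twOf c f m) c

lemma powOf_additive {A : Type*} [AddMonoid A] {φ : F → A}
    (h : ∀ f g, φ (mul f g) = φ f + φ g) (f : F) (n : ℕ) :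
    φ (powOf mul f n) = (n + 1) • φ f := by
  induction n with
  | zero => simp [powOf]
  | succ n ih => rw [powOf, h, ih, succ_nsmul (φ f) (n + 1)]

lemma twOf_additive {A : Type*} [AddMonoid A] {φ : F → A}
    (h : ∀ f g, φ (mul f g) = φ f + φ g) (c f : F) (m : ℕ) :
    φ (twOf mul c f m) = φ f + m • φ c := by
  induction m with
  | zero => simp [twOf]
  | succ n ih => rw [twOf, h, ih, succ_nsmul (φ c) n, add_assoc]

lemma nsmul_max (n : ℕ) (a b : WithBot ℕ) : n • max a b = max (n • a) (n • b) := by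
  have hm : Monotone fun x : WithBot ℕ => n • x := by
    intro x y hxy
    exact nsmul_le_nsmul_right hxy n
  exact hm.map_max

lemma twOf_nat {φ : F → WithBot ℕ} (h : ∀ f g, φ (mul f g) = φ f + φ g) (c f : F) (k : ℕ)
    (hc : φ c = (k : WithBot ℕ)) (m : ℕ) :
    φ (twOf mul c f m) = φ f + ((k * m : ℕ) : WithBot ℕ) := by
  rw [twOf_additive mul h, hc, nsmul_coe, mul_comm]

lemma twOf_nat' {φ : F → ℕ} (h : ∀ f g, φ (mul f g) = φ f + φ g) (c f : F) (k : ℕ)
    (hc : φ c = k) (m : ℕ) :
    φ (twOf mul c f m) = φ f + k * m := by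
  rw [twOf_additive mul h, hc, smul_eq_mul, mul_comm]

lemma powOf_nat' {φ : F → ℕ} (h : ∀ f g, φ (mul f g) = φ f + φ g) (f : F) (n : ℕ) :
    φ (powOf mul f n) = (n + 1) * φ f := by
  rw [powOf_additive mul h, smul_eq_mul]

end Pool.Agent.TH116.PT
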